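import Mathlib
import Pool.Agent.Work.MP_5e5ff1_ag.Bd.B08
import Pool.Agent.Work.MP_5e5ff1_ag.Bd.B09
import Pool.Agent.Work.MP_5e5ff1_ag.Bd.B11
import Pool.Agent.Work.MP_5e5ff1_ag.Bd.B04
import Pool.Agent.Work.MP_5e5ff1_ag.Bd.B06
import Pool.Agent.Work.MP_5e5ff1_ag.Unit.ItemMSH1
import Pool.Agent.Work.MP_5e5ff1_ag.Bd.B07
import Pool.Agent.Work.MP_5e5ff1_ag.Unit.ItemMUnif1
import Pool.Agent.Work.MP_5e5ff1_ag.Unit.ItemPCrit
import Pool.Agent.Work.MP_5e5ff1_ag.Unit.ItemPMin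

/-! All the items of the theorem of Mehta and Seshadri and of the comparison. -/

namespace Pool.Agent.MSU.All

open Pool.Agent.MSU

theorem h_S_Prim : S_Prim := prf_S_Prim
theorem h_S_Ex : S_Ex := prf_S_Ex h_S_Prim
theorem h_S_Unit : S_Unit := prf_S_Unit
theorem h_S_Sol : S_Sol := prf_S_Sol h_S_Ex h_S_Unit
theorem h_S_Inv : S_Inv := prf_S_Inv h_S_Sol h_S_Unit
theorem h_S_Uniq : S_Uniq := prf_S_Uniq h_S_Sol h_S_Inv
theorem h_S_Glue : S_Glue := prf_S_Glue h_S_Sol h_S_Inv h_S_Uniq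
theorem h_S_W : S_W := prf_S_W h_S_Prim h_S_Sol h_S_Inv
theorem h_S_WGlue : S_WGlue := prf_S_WGlue h_S_Inv h_S_Glue
theorem h_S_PDiff : S_PDiff := prf_S_PDiff h_S_Sol h_S_Inv
theorem h_S_ZBlock : S_ZBlock := prf_S_ZBlock h_S_Sol h_S_Uniq
theorem h_S_Z0 : S_Z0 := prf_S_Z0 h_S_Sol h_S_Uniq
theorem h_L_HS : L_HS := prf_L_HS
theorem h_L_HSB : L_HSB := prf_L_HSB
theorem h_L_NF : L_NF := prf_L_NF h_S_Sol h_S_Inv h_S_Glue h_L_HS
theorem h_L_Mon : L_Mon := prf_L_Mon h_S_Glue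
theorem h_L_Diag : L_Diag := prf_L_Diag
theorem h_L_Row : L_Row := prf_L_Row h_L_NF
theorem h_L_W : L_W := prf_L_W h_S_Sol h_S_Inv h_L_HSB
theorem h_L_K : L_K := prf_L_K h_S_Inv h_L_NF h_L_Mon h_L_Diag h_L_W
theorem h_M_Cls : M_Cls := prf_M_Cls
theorem h_M_Strong : M_Strong := prf_M_Strong
theorem h_M_Punct : M_Punct := prf_M_Punct
theorem h_M_Rigid : M_Rigid := prf_M_Rigid
theorem h_M_SH1 : M_SH1 := prf_M_SH1 h_M_Cls h_M_Strong h_M_Punct h_M_Rigid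
theorem h_M_SH2 : M_SH2 := prf_M_SH2 h_M_SH1
theorem h_M_Unif1 : M_Unif1 := prf_M_Unif1 h_M_Cls h_M_Punct
theorem h_M_Unif : M_Unif := prf_M_Unif h_M_Unif1
theorem h_M_LocBd : M_LocBd := prf_M_LocBd
theorem h_D_Rank : D_Rank := prf_D_Rank
theorem h_D_Rel : D_Rel := prf_D_Rel
theorem h_D_RankAll : D_RankAll := prf_D_RankAll h_D_Rank
theorem h_D_LM : D_LM := prf_D_LM
theorem h_D_RAT : D_RAT := prf_D_RAT
theorem h_D_RatMin : D_RatMin := prf_D_RatMin h_D_LM h_D_RAT h_D_Rel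
theorem h_D_Factor : D_Factor := prf_D_Factor h_D_Rank h_D_Rel h_D_RankAll h_D_RatMin
theorem h_D_Deg : D_Deg := prf_D_Deg h_D_Factor h_M_SH2
theorem h_D_Det : D_Det := prf_D_Det h_M_SH1
theorem h_I_Inj1 : I_Inj1 := prf_I_Inj1 h_S_Inv h_S_Sol h_S_Glue h_S_W h_S_WGlue h_L_Row h_L_K h_M_SH1 h_D_Deg
theorem h_I_Inj0 : I_Inj0 := prf_I_Inj0
theorem h_E_IFT : E_IFT := prf_E_IFT
theorem h_E_Smooth : E_Smooth := prf_E_Smooth h_S_PDiff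
theorem h_E_Dec : E_Dec := prf_E_Dec h_S_ZBlock
theorem h_E_Enc : E_Enc := prf_E_Enc h_S_ZBlock
theorem h_E_Dec0 : E_Dec0 := prf_E_Dec0 h_S_Z0
theorem h_T_Loc : T_Loc := prf_T_Loc
theorem h_T_LocInf : T_LocInf := prf_T_LocInf h_T_Loc
theorem h_T_Scale : T_Scale := prf_T_Scale h_T_Loc h_T_LocInf
theorem h_E_Ker1 : E_Ker1 := prf_E_Ker1 h_S_PDiff h_S_ZBlock h_E_Smooth h_E_Dec h_T_Scale h_I_Inj1
theorem h_E_Ker0 : E_Ker0 := prf_E_Ker0 h_S_Z0 h_E_Smooth h_E_Dec0 h_I_Inj0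
theorem h_E_Open : E_Open := prf_E_Open h_E_Smooth h_E_Ker1 h_E_Ker0 h_E_IFT
theorem h_K_Frame : K_Frame := prf_K_Frame h_S_Sol h_S_Inv h_S_Glue h_L_Row
theorem h_K_Montel : K_Montel := prf_K_Montel
theorem h_K_Closed : K_Closed := prf_K_Closed h_S_Sol h_S_Inv h_S_Uniq h_K_Frame h_M_Unif h_M_LocBd h_K_Montel h_D_Deg h_D_Det
theorem h_P_Slope : P_Slope := prf_P_Slope
theorem h_P_Min : P_Min := prf_P_Min
theorem h_P_Crit : P_Crit := prf_P_Crit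
theorem h_P_Start : P_Start := prf_P_Start h_S_Z0
theorem h_T_Path : T_Path := prf_T_Path h_P_Slope h_P_Min h_P_Crit h_P_Start h_E_Open h_E_Dec h_E_Enc h_K_Closed h_T_Scale
theorem h_T_Sol : T_Sol := prf_T_Sol h_S_Sol h_S_Inv h_S_Glue h_L_NF h_L_Mon h_L_Diag h_L_Row
theorem h_T_MSB : T_MSB := prf_T_MSB h_T_Path h_E_Dec h_T_Sol
theorem h_N_Dom : N_Dom := prf_N_Dom
theorem h_N_DomInf : N_DomInf := prf_N_DomInf
theorem h_N_Dec : N_Dec := prf_N_Dec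
theorem h_N_Coef : N_Coef := prf_N_Coef
theorem h_N_Open : N_Open := prf_N_Open h_N_Dec h_N_Coef
theorem h_N_NN : N_NN := prf_N_NN
theorem h_N_Trans : N_Trans := prf_N_Trans h_N_Dom h_N_DomInf h_N_NN
theorem h_N_Back : N_Back := prf_N_Back
theorem h_N_Zero : N_Zero := prf_N_Zero
theorem h_N_Norm : N_Norm := prf_N_Norm
theorem h_N_Unif : N_Unif := prf_N_Unif h_M_Unif1
theorem h_N_LocBd : N_LocBd := prf_N_LocBd
theorem h_N_Limit : N_Limit := prf_N_Limit h_N_Norm h_N_Unif h_N_LocBd h_K_Montel h_D_Deg h_D_Det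
theorem h_N_Step : N_Step := prf_N_Step h_N_Open h_N_Trans h_N_Back h_N_Limit
theorem h_N_Sort : N_Sort := prf_N_Sort h_T_MSB
theorem h_N_Ind : N_Ind := prf_N_Ind h_N_Step h_N_Sort h_N_NN
theorem h_N_Lat : N_Lat := prf_N_Lat
theorem h_N_Pert : N_Pert := prf_N_Pert
theorem h_N_Main : N_Main := prf_N_Main h_N_Open h_N_Limit h_N_Zero h_N_Ind h_N_Lat h_N_Pert h_T_MSB
theorem h_M_St : M_St := prf_M_St
theorem h_M_Col : M_Col := prf_M_Col h_M_SH1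
theorem h_M_Tens : M_Tens := prf_M_Tens
theorem h_M_Factor : M_Factor := prf_M_Factor h_D_Factor
theorem h_M_Sup : M_Sup := prf_M_Sup h_M_Factor h_M_SH2
theorem h_M_CB : M_CB := prf_M_CB
theorem h_M_Sub : M_Sub := prf_M_Sub h_M_CB h_M_SH1
theorem h_M_Fib : M_Fib := prf_M_Fib h_M_Sup h_M_Sub
theorem h_M_Irr : M_Irr := prf_M_Irr h_M_Sup
theorem h_M_Grp : M_Grp := prf_M_Grp
theorem h_M_Prod : M_Prod := prf_M_Prod

end Pool.Agent.MSU.All
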