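import Mathlib
import Pool.Agent.Work.MP_5e5ff1_ag.Bd.B04
import Pool.Agent.Work.MP_5e5ff1_ag.Bd.B09

/-! Assembly of the unitary theorem. -/

open Polynomial Matrix NumberField

set_option linter.unusedSectionVars false

namespace Pool.Agent.Work.MP_5e5ff1_ag.M

open Pool.Agent.Work.MP_5e5ff1_ag.T Pool.Agent.Work.MP_5e5ff1_ag.A Pool.Agent.MSU

/-- The submodules which are invariant under the action of `ρ` on the tensor power. -/
def invSubs {r : ℕ} (m : ℕ) (ρ : Fin 3 → Matrix.unitaryGroup (Fin r) ℂ) :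
    Set (Submodule ℂ ((Fin m → Unit ⊕ Fin r) → ℂ)) :=
  {U | ∀ x, U.map (tens m (ρ x : Matrix (Fin r) (Fin r) ℂ)).mulVecLin ≤ U}

theorem unitary_of_stable (hN : N_Main) (hSt : M_St) (hCol : M_Col) (hT : M_Tens) (hFib : M_Fib)
    (hIrr : M_Irr) (hPr : M_Prod) {r : ℕ} {g₀ g₁ : Matrix (Fin r) (Fin r) ℂ}
    {w : Fin 3 × Fin r → ℝ} (h₀ : g₀.det ≠ 0) (h₁ : g₁.det ≠ 0)
    (hw : ∀ j, 0 ≤ w (0, j) ∧ w (0, j) ≤ 1 ∧ 0 ≤ w (1, j) ∧ w (1, j) ≤ 1)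
    (hs : Stable g₀ g₁ w)
    (hsm : ∀ m : ℕ, Semistable (tens m g₀) (tens m g₁) (tensWeight m w)) :
    ∃ ρ : Fin 3 → Matrix.unitaryGroup (Fin r) ℂ, ρ 0 * ρ 1 * ρ 2 = 1 ∧
      (∀ x, (ρ x : Matrix (Fin r) (Fin r) ℂ).charpoly
        = ∏ j, (X - C (Complex.exp (2 * Real.pi * Complex.I * ((w (x, j) : ℝ) : ℂ))))) ∧
      (∀ U : Submodule ℂ (Fin r → ℂ),
        (∀ x, U.map (ρ x : Matrix (Fin r) (Fin r) ℂ).mulVecLin ≤ U) → U = ⊥ ∨ U = ⊤) ∧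
      ∀ y : ℂ, y ≠ 0 → y ≠ 1 → ∃ S : Matrix (Fin r) (Fin r) ℂ, S.det ≠ 0 ∧ ∀ m : ℕ,
        parFibres (tens m g₀) (tens m g₁) (tensWeight m w) y
          = Submodule.map (tens m S).mulVecLin '' invSubs m ρ := by
  have hgu : GU (gam g₀ g₁) := by
    intro x
    rw [isUnit_iff_ne_zero]
    fin_cases x
    · simpa [gam] using h₀
    · simpa [gam] using h₁
    · simp [gam]
  have hg2 : gam g₀ g₁ 2 = 1 := by simp [gam]
  have hcw : CWin (MSU.wt w) := by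
    intro x hx a b
    have ha := hw a
    have hb := hw b
    unfold MSU.wt
    fin_cases x
    · simp only [Fin.zero_eta] at hx ⊢
      linarith [ha.1, ha.2.1, hb.1, hb.2.1]
    · simp only [Fin.mk_one] at hx ⊢
      linarith [ha.2.2.1, ha.2.2.2, hb.2.2.1, hb.2.2.2]
    · exact absurd rfl hx
  have hsum : ∑ x, ∑ i, MSU.wt w x i = 0 := by
    have h1 : ∑ x, ∑ i, MSU.wt w x i = -∑ i, w i := by
      rw [Fintype.sum_prod_type]
      simp only [MSU.wt, Finset.sum_neg_distrib]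
    rw [h1, hs.1, neg_zero]
  obtain ⟨G, Q, hMV, hrow, hdet, hcp⟩ := hN r (gam g₀ g₁) (MSU.wt w) hgu hg2 hcw hsum
    (hSt r g₀ g₁ w h₀ h₁ hs)
  have hQ : ∀ x, Q x ∈ Matrix.unitaryGroup (Fin r) ℂ := by
    intro x
    rw [Matrix.mem_unitaryGroup_iff', Matrix.star_eq_conjTranspose]
    exact hMV.unit x
  have hcol := hCol r (gam g₀ g₁) (MSU.wt w) G Q hgu hsum hMV hrow hdet
  refine ⟨fun x => ⟨Q x, hQ x⟩, ?_, ?_, ?_, ?_⟩
  · apply Subtype.ext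
    exact hPr r G Q hMV hdet
  · intro x
    change (Q x).charpoly = _
    rw [hcp x]
    apply Finset.prod_congr rfl
    intro j _
    congr 3
    unfold MSU.wt
    push_cast
    ring
  · intro U hU
    exact hIrr r g₀ g₁ w G Q h₀ h₁ hs hMV hrow hdet U hU
  · intro y hy0 hy1
    obtain ⟨j, hj⟩ := V_cover hy0 hy1
    refine ⟨G j y, (hdet j y hj).ne_zero, fun m => ?_⟩
    obtain ⟨hM1, hM2, hM3, hM4⟩ := hT r m g₀ g₁ w G Q h₀ h₁ hMV hrow hdet hcol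
    exact hFib _ _ _ _ _ _ (tens_det_ne m h₀) (tens_det_ne m h₁) (hsm m) hM1 hM2 hM3 hM4 j y hj

theorem unitary_main (hN : N_Main) (hSt : M_St) (hCol : M_Col) (hT : M_Tens) (hFib : M_Fib)
    (hIrr : M_Irr) (hPr : M_Prod) (hGrp : M_Grp) {K : Type} [Field K] [NumberField K]
    (σ : K →+* ℂ) {r n N : ℕ} (hn0 : 0 < n) (hN0 : 0 < N)
    {b c : Matrix (Fin r) (Fin r) (𝓞 K)} {e : Fin 3 × Fin r → ℚ}
    (he : ∀ i, ∃ s : ℤ, e i = s / N) (hexp : IsExponents n b c e) {a : ℕ} {u : ℤ}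
    (hu : (N : ℤ) ∣ u * a - 1)
    (hinf : {P : Ideal (𝓞 K) | P.IsMaximal ∧ ringChar (𝓞 K ⧸ P) ≡ a [MOD N] ∧
      PCurvZero n b c P}.Infinite)
    {B D : Matrix (Fin r) (Fin r) ℂ} (hB : ∀ i j, B i j = σ (b i j : K) / n)
    (hD : ∀ i j, D i j = σ (c i j : K) / n) :
    ∃ (Φ : ℂ ≃+* ℂ) (g₀ g₁ : Matrix (Fin r) (Fin r) ℂ) (w : Fin 3 × Fin r → ℝ),
      (∀ ζ : ℂ, ζ ^ N = 1 → Φ ζ = ζ ^ a) ∧
      g₀.det ≠ 0 ∧ g₁.det ≠ 0 ∧
      (∀ i, ∃ z : ℤ, w i + u * ((e i : ℚ) : ℝ) = z) ∧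
      (∀ j, 0 ≤ w (0, j) ∧ w (0, j) ≤ 1 ∧ 0 ≤ w (1, j) ∧ w (1, j) ≤ 1) ∧
      (∀ m : ℕ, Semistable (tens m g₀) (tens m g₁) (tensWeight m w)) ∧
      Semistable g₀ g₁ w ∧ (IrreducibleSystem B D ↔ Stable g₀ g₁ w) ∧
      (∀ x : ℂ, x ≠ 0 → x ≠ 1 → ∃ γ : Matrix (Fin r) (Fin r) ℂ, γ.det ≠ 0 ∧ ∀ m : ℕ,
        connFibres (tensAdd m B) (tensAdd m D) x
          = Submodule.map (tens m γ).mulVecLin ''
            parFibres (tens m g₀) (tens m g₁) (tensWeight m w) (Φ x)) ∧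
      (∀ y : ℂ, y ≠ 0 → y ≠ 1 → (HasAlgebraicSolutions B D ↔ FiniteBundle g₀ g₁ w y)) ∧
      (IrreducibleSystem B D → ∃ ρ : Fin 3 → Matrix.unitaryGroup (Fin r) ℂ,
        ρ 0 * ρ 1 * ρ 2 = 1 ∧
        (∀ x, (ρ x : Matrix (Fin r) (Fin r) ℂ).charpoly
          = ∏ j, (X - C (Complex.exp (-(2 * Real.pi * Complex.I * (u * ((e (x, j) : ℚ) : ℂ))))))) ∧
        (∀ U : Submodule ℂ (Fin r → ℂ),
          (∀ x, U.map (ρ x : Matrix (Fin r) (Fin r) ℂ).mulVecLin ≤ U) → U = ⊥ ∨ U = ⊤) ∧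
        (∀ y : ℂ, y ≠ 0 → y ≠ 1 → ∃ S : Matrix (Fin r) (Fin r) ℂ, S.det ≠ 0 ∧ ∀ m : ℕ,
          parFibres (tens m g₀) (tens m g₁) (tensWeight m w) y
            = Submodule.map (tens m S).mulVecLin '' invSubs m ρ) ∧
        (∀ x : ℂ, x ≠ 0 → x ≠ 1 → ∃ S : Matrix (Fin r) (Fin r) ℂ, S.det ≠ 0 ∧ ∀ m : ℕ,
          connFibres (tensAdd m B) (tensAdd m D) x
            = Submodule.map (tens m S).mulVecLin '' invSubs m ρ) ∧
        (HasAlgebraicSolutions B D ↔ Finite (Subgroup.closure (Set.range ρ)))) := by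
  have hB' : (n : ℂ)⁻¹ • b.map (fun x => σ (algebraMap (𝓞 K) K x)) = B := by
    ext1 i j
    rw [Matrix.smul_apply, map_apply, hB, smul_eq_mul, div_eq_inv_mul]
  have hD' : (n : ℂ)⁻¹ • c.map (fun x => σ (algebraMap (𝓞 K) K x)) = D := by
    ext1 i j
    rw [Matrix.smul_apply, map_apply, hD, smul_eq_mul, div_eq_inv_mul]
  have h := main_theorem σ hn0 hN0 he hexp hu hinf
  rw [hB', hD'] at h
  obtain ⟨Φ, g₀, g₁, w, h1, h2, h3, h4, h5, h6, h7, h8, h9⟩ := h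
  refine ⟨Φ, g₀, g₁, w, h1, h2, h3, h4, h5, h8, h6, h7, h9, fun y hy0 hy1 => finite_iff h9 hy0 hy1,
    ?_⟩
  intro hirr
  obtain ⟨ρ, hρ1, hρ2, hρ3, hρ4⟩ := unitary_of_stable hN hSt hCol hT hFib hIrr hPr h2 h3 h5
    (h7.mp hirr) h8
  have hconn : ∀ x : ℂ, x ≠ 0 → x ≠ 1 → ∃ S : Matrix (Fin r) (Fin r) ℂ, S.det ≠ 0 ∧ ∀ m : ℕ,
      connFibres (tensAdd m B) (tensAdd m D) x
        = Submodule.map (tens m S).mulVecLin '' invSubs m ρ := by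
    intro x hx0 hx1
    obtain ⟨γ, hγ, hfib⟩ := h9 x hx0 hx1
    obtain ⟨S, hS, hSm⟩ := hρ4 (Φ x) (by simpa using hx0) (by simpa using hx1)
    refine ⟨γ * S, by rw [det_mul]; exact mul_ne_zero hγ hS, fun m => ?_⟩
    rw [hfib m, hSm m, Set.image_image]
    apply Set.image_congr
    intro U _
    rw [← Submodule.map_comp, ← Matrix.mulVecLin_mul, ← tens_mul]
  refine ⟨ρ, hρ1, ?_, hρ3, hρ4, hconn, ?_⟩
  · intro x
    rw [hρ2 x]
    apply Finset.prod_congr rfl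
    intro j _
    congr 2
    obtain ⟨z, hz⟩ := h4 (x, j)
    have hw' : ((w (x, j) : ℝ) : ℂ) = (z : ℂ) - u * ((e (x, j) : ℚ) : ℂ) := by
      have : w (x, j) = z - u * ((e (x, j) : ℚ) : ℝ) := by linarith
      rw [this]
      push_cast
      ring
    rw [hw', mul_sub, Complex.exp_sub, Complex.exp_neg, div_eq_mul_inv]
    have : Complex.exp (2 * Real.pi * Complex.I * (z : ℂ)) = 1 := by
      rw [mul_comm]
      exact Complex.exp_int_mul_two_pi_mul_I z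
    rw [this, one_mul]
  · obtain ⟨S, hS, hSm⟩ := hconn 2 (by norm_num) (by norm_num)
    rw [algebraic_iff_bounded (x := 2) (by norm_num) (by norm_num) B D hS, ← hGrp r ρ]
    constructor
    · rintro ⟨E, hE⟩
      refine ⟨E, fun m τ => ?_⟩
      obtain ⟨U, hU, hrank, hmem⟩ := hE m τ
      rw [hSm m] at hU
      obtain ⟨U', hU', rfl⟩ := hU
      rw [finrank_map_mulVecLin (tens_det_ne m hS)] at hrank
      rw [mem_map_mulVecLin (tens_det_ne m hS)] at hmem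
      exact ⟨U', hU', hrank, hmem⟩
    · rintro ⟨E, hE⟩
      refine ⟨E, fun m τ => ?_⟩
      obtain ⟨U, hU, hrank, hmem⟩ := hE m τ
      refine ⟨Submodule.map (tens m S).mulVecLin U, ?_, ?_, ?_⟩
      · rw [hSm m]
        exact ⟨U, hU, rfl⟩
      · rwa [finrank_map_mulVecLin (tens_det_ne m hS)]
      · rwa [mem_map_mulVecLin (tens_det_ne m hS)]

end Pool.Agent.Work.MP_5e5ff1_ag.M
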